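import Pool.Agent.Q64.GL.Stm

/-!
# GL-G2: the case `p = 2` of the weighted inequality (Tonelli step)
-/

set_option autoImplicit false

open MeasureTheory Set Filter Topology
open scoped ENNReal NNReal Real

namespace Pool.Agent.Q95.GL

open Pool.Agent.Q64.GL

theorem t_G2 (h1 : S_L2) (h2 : S_POI) : Pool.Agent.Q64.GL.S_G2 := by
  intro lam hlam Q T
  obtain ⟨C, hC⟩ := h1 Q
  refine ⟨T * C, ?_⟩
  intro w hAP hTail f hf hfin
  set wr : ℝ → ℝ := fun x => (w x).toReal with hwr
  have hw : ∀ x, ENNReal.ofReal (wr x) = w x := fun x => ENNReal.ofReal_toReal (hAP.fin x)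
  have hwf : (fun x => ENNReal.ofReal (wr x)) = w := funext hw
  have hwm : Measurable wr := hAP.meas.ennreal_toReal
  have hwp : ∀ x, 0 < wr x := fun x => ENNReal.toReal_pos (hAP.pos x) (hAP.fin x)
  have hmul : ∀ x, ENNReal.ofReal (f x ^ 2 * wr x) = ENNReal.ofReal |f x| ^ 2 * w x := by
    intro x
    rw [ENNReal.ofReal_mul (sq_nonneg _), hw, ← sq_abs, ENNReal.ofReal_pow (abs_nonneg _)]
  have hmulf : (∫⁻ x, ENNReal.ofReal (f x ^ 2 * wr x)) = ∫⁻ x, ENNReal.ofReal |f x| ^ 2 * w x :=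
    lintegral_congr hmul
  have hAP' : APd 2 (fun x => ENNReal.ofReal (wr x)) Q := by rw [hwf]; exact hAP
  obtain ⟨hint, hL2⟩ := hC wr hwm hwp hAP' f hf (by rw [hmulf]; exact hfin)
  refine ⟨hint, ?_⟩
  rw [hmulf, hwf] at hL2
  obtain ⟨G, -, -, hG⟩ := h2 f hint
  set g : ℝ × ℝ → ℝ := fun q => ‖deriv G ⟨q.1, q.2⟩‖ ^ 2 with hg
  have hgm : Measurable g := by
    have e1 : Measurable (fun q : ℝ × ℝ => (⟨q.1, q.2⟩ : ℂ)) :=
      Complex.measurableEquivRealProd.symm.measurable
    exact (((measurable_deriv G).comp e1).norm).pow_const 2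
  have hg0 : ∀ q, 0 ≤ g q := fun q => sq_nonneg _
  have hgg : ∀ z y : ℝ, 0 < y → gradSq f z y = g (z, y) := fun z y hy => (hG z y hy).2.2
  set F : ℝ → ℝ × ℝ → ℝ≥0∞ := fun x q =>
    ENNReal.ofReal ((q.2 / (|x - q.1| + q.2)) ^ lam * g q) * w x with hF
  have hFm : Measurable (Function.uncurry F) := by
    have e1 : Measurable (fun r : ℝ × ℝ × ℝ => (r.2.2 / (|r.1 - r.2.1| + r.2.2)) ^ lam) := by
      apply Measurable.pow_const
      apply Measurable.div
      · exact measurable_snd.comp measurable_snd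
      · apply Measurable.add
        · have : Measurable (fun r : ℝ × ℝ × ℝ => r.1 - r.2.1) :=
            measurable_fst.sub (measurable_fst.comp measurable_snd)
          exact measurable_norm.comp this
        · exact measurable_snd.comp measurable_snd
    have e2 : Measurable (fun r : ℝ × ℝ × ℝ => g r.2) := hgm.comp measurable_snd
    have e3 : Measurable (fun r : ℝ × ℝ × ℝ => w r.1) := hAP.meas.comp measurable_fst
    exact (e1.mul e2).ennreal_ofReal.mul e3
  set ν : Measure (ℝ × ℝ) := (volume : Measure ℝ).prod ((volume : Measure ℝ).restrict (Ioi 0))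
    with hν
  have hleft : (∫⁻ x, gStar lam f x ^ (2 : ℝ) * w x) = ∫⁻ x, ∫⁻ q, F x q ∂ν := by
    apply lintegral_congr
    intro x
    have e1 : gStar lam f x ^ (2 : ℝ) = ∫⁻ z, ∫⁻ y in Ioi (0 : ℝ),
        ENNReal.ofReal ((y / (|x - z| + y)) ^ lam * gradSq f z y) := by
      unfold gStar
      rw [← ENNReal.rpow_mul]
      norm_num
    rw [e1, ← lintegral_mul_const' _ _ (hAP.fin x)]
    have hFx : Measurable (F x) := hFm.comp (measurable_const.prodMk measurable_id)
    rw [hν, lintegral_prod _ hFx.aemeasurable]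
    apply lintegral_congr
    intro z
    rw [← lintegral_mul_const' _ _ (hAP.fin x)]
    apply setLIntegral_congr_fun measurableSet_Ioi
    intro y hy
    simp only [hF]
    rw [hgg z y hy]
  have hswap : (∫⁻ x, ∫⁻ q, F x q ∂ν) = ∫⁻ q, (∫⁻ x, F x q) ∂ν :=
    lintegral_lintegral_swap hFm.aemeasurable
  have hright : (∫⁻ q, (∫⁻ x, F x q) ∂ν) = ∫⁻ z, ∫⁻ y in Ioi (0 : ℝ), ∫⁻ x, F x (z, y) := by
    rw [hν, lintegral_prod]
    exact (Measurable.lintegral_prod_left hFm).aemeasurable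
  rw [hleft, hswap, hright]
  have hpt : ∀ z y : ℝ, 0 < y → ∫⁻ x, F x (z, y) ≤
      T * (ENNReal.ofReal (gradSq f z y) * m w z y) := by
    intro z y hy
    have e1 : (∫⁻ x, F x (z, y)) = ∫⁻ x, ENNReal.ofReal (g (z, y)) *
        (ENNReal.ofReal (Pool.Agent.Q64.GL.ker lam x z y) * w x) := by
      apply lintegral_congr
      intro x
      simp only [hF, Pool.Agent.Q64.GL.ker]
      rw [mul_comm ((y / (|x - z| + y)) ^ lam) (g (z, y)), ENNReal.ofReal_mul (hg0 _), mul_assoc]
    rw [e1, lintegral_const_mul' _ _ ENNReal.ofReal_ne_top, hgg z y hy]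
    calc ENNReal.ofReal (g (z, y)) * ∫⁻ x, ENNReal.ofReal (Pool.Agent.Q64.GL.ker lam x z y) * w x
        ≤ ENNReal.ofReal (g (z, y)) * (T * m w z y) := by
          gcongr
          exact hTail z y hy
      _ = T * (ENNReal.ofReal (g (z, y)) * m w z y) := by ring
  calc (∫⁻ z, ∫⁻ y in Ioi (0 : ℝ), ∫⁻ x, F x (z, y))
      ≤ ∫⁻ z, ∫⁻ y in Ioi (0 : ℝ), T * (ENNReal.ofReal (gradSq f z y) * m w z y) := by
        apply lintegral_mono
        intro z
        apply setLIntegral_mono' measurableSet_Ioi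
        intro y hy
        exact hpt z y hy
    _ = T * ∫⁻ z, ∫⁻ y in Ioi (0 : ℝ), ENNReal.ofReal (gradSq f z y) * m w z y := by
        rw [← lintegral_const_mul' _ _ ENNReal.coe_ne_top]
        apply lintegral_congr
        intro z
        rw [lintegral_const_mul' _ _ ENNReal.coe_ne_top]
    _ ≤ T * (C * ∫⁻ x, ENNReal.ofReal |f x| ^ 2 * w x) := by gcongr
    _ = ((T * C : ℝ≥0) : ℝ≥0∞) * ∫⁻ x, ENNReal.ofReal |f x| ^ 2 * w x := by
        push_cast
        ring

end Pool.Agent.Q95.GL
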